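import Pool.Agent.P.MP_140fc6_an.Proof

namespace Pool.Agent.Results.MP_140fc6_an.WOHiffP

open Pool.Agent.P.MP_140fc6_an

/-- A real Banach space is weakly octahedral if and only if it has property (P). -/
theorem result (X : Type*) [NormedAddCommGroup X] [NormedSpace ℝ X] [CompleteSpace X] :
    WeaklyOctahedral X ↔ PropertyP X :=
  ⟨propertyP_of_woh, woh_of_propertyP⟩

end Pool.Agent.Results.MP_140fc6_an.WOHiffP
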